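import Pool.Agent.W622.ETG.Stm
import Pool.Agent.W622.ETG.Lin

set_option autoImplicit false

/-!
AGP: in case B, all blocks good, any `p` blocks form a basis: `p` divides the number of blocks.
-/

namespace Pool.Agent.W826.ELG

open Pool.Agent.W622.ETG Module

section
variable {V : Type} [AddCommGroup V] [Module (ZMod 2) V] [Finite V]

omit [Finite V] in
/-- blocks are local in case B -/
theorem loc_of_block {e : V} {A : Fam V} (h : CB e A) {X : DSub V} (hX : Block e A X) : LocBlock e A X := by
  rcases hX with hX | hX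
  · exact absurd hX.1 (h.nc X)
  · exact hX

theorem sum_mem_A (hOM : S_OM) {e : V} {A : Fam V} (hA : EFam e A) (T : Finset (DSub V))
    (hT : ∀ X ∈ T, LocBlock e A X) : ∑ Z ∈ T, om e A Z ∈ A :=
  Submodule.sum_mem A fun Z hZ => (hOM V e A Z hA (hT Z hZ)).1

/-- the support of a sum of the forms of independent local blocks -/
theorem sp_sum (hOM : S_OM) {e : V} {A : Fam V} (hA : EFam e A) (T : Finset (DSub V))
    (hT : ∀ X ∈ T, LocBlock e A X) (hi : sSupIndep (T : Set (DSub V))) :
    sp (∑ Z ∈ T, om e A Z) = sSup (T : Set (DSub V)) := by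
  classical
  induction T using Finset.induction_on with
  | empty => simp
  | insert Z T hZ ih =>
    have hsub : (T : Set (DSub V)) ⊆ ((insert Z T : Finset (DSub V)) : Set (DSub V)) := by
      intro Y hY
      exact Finset.mem_coe.mpr (Finset.mem_insert_of_mem (Finset.mem_coe.mp hY))
    have ih' := ih (fun X hX => hT X (Finset.mem_insert_of_mem hX)) (hi.mono hsub)
    have hZl := hT Z (Finset.mem_insert_self Z T)
    obtain ⟨h1, -, h3, -⟩ := hOM V e A Z hA hZl
    have hdis : Disjoint Z (sSup (T : Set (DSub V))) := by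
      have := hi (Finset.mem_coe.mpr (Finset.mem_insert_self Z T))
      refine this.mono_right (sSup_le_sSup ?_)
      intro Y hY
      refine ⟨hsub hY, ?_⟩
      rintro rfl
      exact hZ (Finset.mem_coe.mp hY)
    rw [Finset.sum_insert hZ, sp_add (hA _ h1)
      (hA _ (sum_mem_A hOM hA T fun X hX => hT X (Finset.mem_insert_of_mem hX)))
      (by rw [h3, ih']; exact hdis), h3, ih', Finset.coe_insert, sSup_insert]

/-- elements of a sum of blocks of order two -/
theorem mem_iSup_om (hOM : S_OM) {e : V} {A : Fam V} (hA : EFam e A) (s : Set (DSub V))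
    (hs : ∀ X ∈ s, LocBlock e A X) {C : Fam V} (hC : C ≤ A) {η : Frm V}
    (hη : η ∈ ⨆ X ∈ s, res C X) :
    ∃ N : Finset (DSub V), (∀ X ∈ N, X ∈ s) ∧ η = ∑ Z ∈ N, om e A Z := by
  classical
  let P : Fam V :=
    { carrier := {η | ∃ N : Finset (DSub V), (∀ X ∈ N, X ∈ s) ∧ η = ∑ Z ∈ N, om e A Z}
      add_mem' := by
        rintro a b ⟨N, hN, rfl⟩ ⟨M, hM, rfl⟩
        refine ⟨symmDiff N M, ?_, ?_⟩
        · intro X hX
          rw [Finset.mem_symmDiff] at hX
          rcases hX with h | h
          · exact hN X h.1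
          · exact hM X h.1
        · have h1 : symmDiff N M = (N \ M) ∪ (M \ N) := by
            ext x; simp only [Finset.mem_symmDiff, Finset.mem_union, Finset.mem_sdiff]
          have hd : Disjoint (N \ M) (M \ N) := by
            rw [Finset.disjoint_left]
            intro x hx hx'
            rw [Finset.mem_sdiff] at hx hx'
            exact hx.2 hx'.1
          rw [h1, Finset.sum_union hd, ← Finset.sum_inter_add_sum_sdiff N M (fun Z => om e A Z),
            ← Finset.sum_inter_add_sum_sdiff M N (fun Z => om e A Z), Finset.inter_comm M N]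
          have h2 := vadd (∑ x ∈ N ∩ M, om e A x)
          have h3 : ∀ a b c : Frm V, a + b + (a + c) = (a + a) + (b + c) := by
            intro a b c; abel
          rw [h3, h2, zero_add]
      zero_mem' := ⟨∅, by simp, by simp⟩
      smul_mem' := by
        rintro c a ⟨N, hN, rfl⟩
        rcases z01 c with rfl | rfl
        · exact ⟨∅, by simp, by simp⟩
        · exact ⟨N, hN, by rw [one_smul]⟩ }
  have hP : (⨆ X ∈ s, res C X) ≤ P := by
    refine iSup_le fun X => iSup_le fun hX => ?_
    intro ω hω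
    obtain ⟨-, -, -, h4, -⟩ := hOM V e A X hA (hs X hX)
    rcases h4 ω (res_mono_left hC X hω) with rfl | rfl
    · exact P.zero_mem
    · refine ⟨{X}, ?_, ?_⟩
      · intro Y hY
        rw [Finset.mem_singleton] at hY
        exact hY ▸ hX
      · rw [Finset.sum_singleton]
  exact hP hη

end

theorem t_AGP (hLU : S_LU) (hDEC : S_DEC) (hCB1 : S_CB1) (hOM : S_OM) :
    S_AGP := by
  classical
  intro V _ _ _ e A d p hCB hG he hp hn hdim hcard hbasis
  have hA : EFam e A := hCB.mc.ef
  have hloc : ∀ X, Block e A X → LocBlock e A X := fun X hX => loc_of_block hCB hX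
  have hbot : ∀ X, Block e A X → X ≠ ⊥ := by
    rintro X hX rfl
    have := hdim ⊥ hX
    rw [finrank_bot] at this
    omega
  -- the finite set of blocks
  have hfin : {X : DSub V | Block e A X}.Finite := Set.toFinite _
  let 𝔅 : Finset (DSub V) := hfin.toFinset
  have hmem : ∀ X, X ∈ 𝔅 ↔ Block e A X := fun X => by
    rw [Set.Finite.mem_toFinset]; rfl
  have hnc : {X : DSub V | Block e A X}.ncard = 𝔅.card := Set.ncard_eq_toFinset_card _ hfin
  rw [hnc] at hcard ⊢
  -- a basis
  obtain ⟨T₀, hT₀, hT₀c⟩ := Finset.exists_subset_card_eq (show p ≤ 𝔅.card by omega)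
  have hT₀b : ∀ X ∈ T₀, Block e A X := fun X hX => (hmem X).mp (hT₀ hX)
  obtain ⟨hi₀, htop₀⟩ := hbasis T₀ hT₀b hT₀c
  set ζ : Frm V := ∑ Z ∈ T₀, om e A Z with hζ
  have hζA : ζ ∈ A := sum_mem_A hOM hA T₀ fun X hX => hloc X (hT₀b X hX)
  have hζsp : sp ζ = ⊤ := by
    rw [hζ, sp_sum hOM hA T₀ (fun X hX => hloc X (hT₀b X hX)) hi₀, htop₀]
  have hnV : finrank (ZMod 2) (Dl V) = d * p := by rw [finrank_Dl, hn]
  -- the p-sets with sum ζ
  let 𝒮 : Finset (Finset (DSub V)) :=
    (𝔅.powersetCard p).filter fun T => ∑ Z ∈ T, om e A Z = ζ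
  have h𝒮 : ∀ T, T ∈ 𝒮 ↔ (∀ X ∈ T, Block e A X) ∧ T.card = p ∧ ∑ Z ∈ T, om e A Z = ζ := by
    intro T
    rw [Finset.mem_filter, Finset.mem_powersetCard]
    constructor
    · rintro ⟨⟨h1, h2⟩, h3⟩
      exact ⟨fun X hX => (hmem X).mp (h1 hX), h2, h3⟩
    · rintro ⟨h1, h2, h3⟩
      exact ⟨⟨fun X hX => (hmem X).mpr (h1 X hX), h2⟩, h3⟩
  -- existence
  have hex : ∀ X, Block e A X → ∃ T ∈ 𝒮, X ∈ T := by
    intro X hX
    obtain ⟨homA, hom0, hsp, hfour, -⟩ := hOM V e A X hA (hloc X hX)
    have hLUX : LU e (res A X) := hLU V e (res A X) (hA.res X) (hCB.mc.her.res X)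
    obtain ⟨π, hπ⟩ := (hDEC V e A X hA).1 hLUX (hG X hX) ζ hζA
    have hπ' : π = om e A X := by
      rcases hfour π hπ.1 with h | h
      · exfalso
        have := hπ.2
        rw [h, add_zero, hζsp, top_disjoint] at this
        exact hbot X hX this
      · exact h
    have hdis : Disjoint (sp (ζ + om e A X)) X := hπ' ▸ hπ.2
    have hne : sp (ζ + om e A X) ≠ ⊤ := by
      intro h
      rw [h, top_disjoint] at hdis
      exact hbot X hX hdis
    obtain ⟨b, hb, hbann⟩ := exists_ann hne
    obtain ⟨hcomp, -, -⟩ := hCB1 V e A b hCB hb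
    have hηmem : ζ + om e A X ∈ res A (ann b) :=
      mem_res'.mpr ⟨A.add_mem hζA homA, hbann⟩
    have hBLloc : ∀ Y ∈ BL e A b, LocBlock e A Y := fun Y hY => hloc Y hY.1
    have hηsup : ζ + om e A X ∈ ⨆ Y ∈ BL e A b, res (res A (ann b)) Y := by
      rw [← hcomp.2.1]; exact hηmem
    obtain ⟨N, hN, hNsum⟩ := mem_iSup_om hOM hA (BL e A b) hBLloc (res_le A _) hηsup
    have hNi : sSupIndep (N : Set (DSub V)) := hcomp.1.mono fun Y hY => hN Y hY
    have hNb : ∀ Y ∈ N, Block e A Y := fun Y hY => (hN Y hY).1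
    have hspN : sp (ζ + om e A X) = sSup (N : Set (DSub V)) := by
      rw [hNsum, sp_sum hOM hA N (fun Y hY => hloc Y (hNb Y hY)) hNi]
    have hdimN : finrank (ZMod 2) (sSup (N : Set (DSub V)) : DSub V) = N.card * d := by
      rw [idim N hNi, Finset.sum_congr rfl fun Y hY => hdim Y (hNb Y hY), Finset.sum_const,
        smul_eq_mul]
    have hζeq : ζ = (ζ + om e A X) + om e A X := (add_cancel' ζ (om e A X)).symm
    have hsup : (⊤ : DSub V) = sSup (N : Set (DSub V)) ⊔ X := by
      rw [← hspN, ← hζsp]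
      conv_lhs => rw [hζeq]
      rw [sp_add (hA _ (A.add_mem hζA homA)) (hA _ homA) (by rw [hsp]; exact hdis), hsp]
    have hXN : X ∉ N := by
      intro h
      have h1 : X ≤ sp (ζ + om e A X) := by
        rw [hspN]; exact le_sSup (Finset.mem_coe.mpr h)
      have h2 : X = ⊥ := by
        have := hdis.mono_left h1
        exact disjoint_self.mp this
      exact hbot X hX h2
    have hcardN : N.card + 1 = p := by
      have h1 : finrank (ZMod 2) (⊤ : DSub V) = N.card * d + d := by
        have h2 := Submodule.finrank_sup_add_finrank_inf_eq (sSup (N : Set (DSub V))) X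
        have h3 : sSup (N : Set (DSub V)) ⊓ X = ⊥ := by
          rw [← hspN]; exact hdis.eq_bot
        rw [h3, finrank_bot, add_zero, ← hsup, hdimN, hdim X hX] at h2
        exact h2
      rw [finrank_top, hnV] at h1
      have h4 : d * p = d * (N.card + 1) := by rw [h1]; ring
      exact (Nat.eq_of_mul_eq_mul_left (by omega) h4).symm
    refine ⟨insert X N, ?_, Finset.mem_insert_self X N⟩
    rw [h𝒮]
    refine ⟨?_, ?_, ?_⟩
    · intro Y hY
      rcases Finset.mem_insert.mp hY with rfl | h
      · exact hX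
      · exact hNb Y h
    · rw [Finset.card_insert_of_notMem hXN, hcardN]
    · rw [Finset.sum_insert hXN, ← hNsum, add_comm]
      exact add_cancel' ζ (om e A X)
  -- uniqueness
  have huniq : ∀ X, ∀ T ∈ 𝒮, ∀ T' ∈ 𝒮, X ∈ T → X ∈ T' → T ⊆ T' := by
    intro X T hT T' hT' hXT hXT' Y hY
    rw [h𝒮] at hT hT'
    by_contra hYT'
    have hYX : Y ≠ X := by rintro rfl; exact hYT' hXT'
    -- the two truncated sums agree
    have hind : ∀ S : Finset (DSub V), (∀ Z ∈ S, Block e A Z) → S.card = p → ∑ Z ∈ S, om e A Z = ζ →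
        X ∈ S → sp (ζ + om e A X) = sSup ((S.erase X : Finset (DSub V)) : Set (DSub V)) := by
      intro S hS hSc hSs hXS
      have hi := (hbasis S hS hSc).1
      have h1 : ∑ Z ∈ S.erase X, om e A Z = ζ + om e A X := by
        rw [← hSs, ← Finset.add_sum_erase S (fun Z => om e A Z) hXS]
        have : ∀ a b : Frm V, b = a + b + a := by
          intro a b
          rw [add_comm a b]
          exact (add_cancel' b a).symm
        exact this _ _
      rw [← h1]
      exact sp_sum hOM hA _ (fun Z hZ => hloc Z (hS Z (Finset.mem_of_mem_erase hZ)))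
        (hi.mono fun Z hZ => Finset.mem_coe.mpr (Finset.mem_of_mem_erase (Finset.mem_coe.mp hZ)))
    have h1 := hind T hT.1 hT.2.1 hT.2.2 hXT
    have h2 := hind T' hT'.1 hT'.2.1 hT'.2.2 hXT'
    have hYle : Y ≤ sSup ((T'.erase X : Finset (DSub V)) : Set (DSub V)) := by
      rw [← h2, h1]
      exact le_sSup (Finset.mem_coe.mpr (Finset.mem_erase.mpr ⟨hYX, hY⟩))
    have hYn : Y ∉ T'.erase X := fun h => hYT' (Finset.mem_of_mem_erase h)
    have hcard' : (insert Y (T'.erase X)).card = p := by
      rw [Finset.card_insert_of_notMem hYn, Finset.card_erase_of_mem hXT', hT'.2.1]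
      omega
    have hblk : ∀ Z ∈ insert Y (T'.erase X), Block e A Z := by
      intro Z hZ
      rcases Finset.mem_insert.mp hZ with rfl | h
      · exact hT.1 _ hY
      · exact hT'.1 Z (Finset.mem_of_mem_erase h)
    have hi := (hbasis _ hblk hcard').1
    have hd : Disjoint Y (sSup ((T'.erase X : Finset (DSub V)) : Set (DSub V))) := by
      refine (hi (Finset.mem_coe.mpr (Finset.mem_insert_self Y _))).mono_right (sSup_le_sSup ?_)
      intro Z hZ
      refine ⟨Finset.mem_coe.mpr (Finset.mem_insert_of_mem (Finset.mem_coe.mp hZ)), ?_⟩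
      rintro rfl
      exact hYn (Finset.mem_coe.mp hZ)
    exact hbot Y (hT.1 Y hY) (disjoint_self.mp (hd.mono_right hYle))
  -- counting
  have hcount : 𝔅.card * 1 = 𝒮.card * p := by
    refine Finset.card_mul_eq_card_mul (fun (X : DSub V) (T : Finset (DSub V)) => X ∈ T) ?_ ?_
    · intro X hX
      obtain ⟨T, hT, hXT⟩ := hex X ((hmem X).mp hX)
      rw [Finset.card_eq_one]
      refine ⟨T, ?_⟩
      ext T'
      rw [Finset.mem_bipartiteAbove, Finset.mem_singleton]
      constructor
      · rintro ⟨hT', hXT'⟩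
        exact Finset.Subset.antisymm (huniq X T' hT' T hT hXT' hXT) (huniq X T hT T' hT' hXT hXT')
      · rintro rfl
        exact ⟨hT, hXT⟩
    · intro T hT
      have hT' := (h𝒮 T).mp hT
      have : Finset.bipartiteBelow (fun (X : DSub V) (T : Finset (DSub V)) => X ∈ T) 𝔅 T = T := by
        ext X
        rw [Finset.mem_bipartiteBelow]
        exact ⟨fun h => h.2, fun h => ⟨(hmem X).mpr (hT'.1 X h), h⟩⟩
      rw [this, hT'.2.1]
  rw [mul_one] at hcount
  rw [hcount]
  exact dvd_mul_left p _

end Pool.Agent.W826.ELG
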